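import Pool.Agent.Helper45.AM.GoalsA
import Pool.Agent.Helper45.AM.GoalsC
import Pool.Agent.Helper15.AM.GoalsG
import Pool.Agent.Helper15.RA.All

/-!
Packet AM-C1 of project AM (MP_cc6379_al): the `T_1`-coefficient of `T_x c_g T_y`.
-/

set_option autoImplicit false

open LaurentPolynomial Pool.Agent.Helper15.RA Pool.Agent.Helper45.AM Pool.Agent.Helper15.AM

noncomputable section

namespace Pool.Agent.Helper5.AM

theorem c1_aux (hPA : G_PA) (hPC : G_PC) (hS : A_S) {S W H : Type} [Group W] [Ring H]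
    [Algebra ℤ[T;T⁻¹] H] (X : Base S W H) (P : Set S) {x g y : W} {k : ℤ}
    (hx : XR X.cs P x) (hg : g ∈ par X.cs P) (hy : XL X.cs P y)
    (hp1 : DegLE k (X.D.t.repr (X.D.c g) 1)) :
    DegLE k (X.D.t.repr (X.D.t x * X.D.c g * X.D.t y) 1) := by
  obtain ⟨-, -, -, hsup, -⟩ := hS S W H X P
  obtain ⟨hu, -, hXL, -⟩ := hPC S W X.M X.cs P
  obtain ⟨-, -, hlen⟩ := hPA S W X.M X.cs P
  obtain ⟨-, -, -, -, -, -, hone, hzero⟩ := g_h1 S W H X.M X.cs X.L X.D.toHecke0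
  have hc : X.D.c g = ∑ u ∈ (X.D.t.repr (X.D.c g)).support,
      X.D.t.repr (X.D.c g) u • X.D.t u := by
    conv_lhs => rw [← X.D.t.linearCombination_repr (X.D.c g)]
    rfl
  have hB : X.D.t x * X.D.c g * X.D.t y = ∑ u ∈ (X.D.t.repr (X.D.c g)).support,
      X.D.t.repr (X.D.c g) u • (X.D.t x * X.D.t u * X.D.t y) := by
    conv_lhs => rw [hc]
    rw [Finset.mul_sum, Finset.sum_mul]
    refine Finset.sum_congr rfl fun u _ => ?_
    rw [mul_smul_comm, smul_mul_assoc]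
  rw [hB, map_sum, Finsupp.finsetSum_apply]
  refine DegLE.sum fun u hus => ?_
  rw [map_smul, Finsupp.smul_apply, smul_eq_mul]
  have huP : u ∈ par X.cs P := hsup g hg u (Finsupp.mem_support_iff.1 hus)
  rw [X.D.mul x u (hlen x hx u huP)]
  by_cases h1 : x * u * y = 1
  · have h2 : x * u = y⁻¹ * 1 := by
      rw [mul_one]
      exact eq_inv_of_mul_eq_one_left h1
    obtain ⟨-, h3⟩ := hu x y⁻¹ u 1 hx ((hXL y).1 hy) huP (one_mem _) h2
    have h4 := hone (x * u) y h1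
    rw [h4, mul_one, h3]
    exact hp1
  · have h4 := hzero (x * u) y h1
    rw [h4, mul_zero]
    exact DegLE.zero k

theorem h_c_1 (hPA : G_PA) (hPC : G_PC) (hS : A_S) : C_1 := by
  intro S W H _ _ _ X x g y hadm
  rcases hadm with ⟨b, hx, hg, hy⟩ | ⟨hx, hg, hy⟩
  · exact c1_aux hPA hPC hS X.toBase (X.F b) hx hg hy ((X.pg b).p1 g hg)
  · exact c1_aux hPA hPC hS X.toBase X.K hx hg hy (X.pgK.p1 g hg)

end Pool.Agent.Helper5.AM
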